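import Pool.Agent.K3h83.IN.Stm6

/-!
Brick C4 of the wave CY of helper83: integer vectors with Gram matrix `e J + 1`.
-/

set_option autoImplicit false

open scoped BigOperators Classical

namespace Pool.Agent.K3h41.CY

section

variable {κ : Type} {I : Finset κ} {e f : ℕ} {u : Fin f → κ → ℤ}

theorem one_le_sq {a : ℤ} (h : a ≠ 0) : 1 ≤ a ^ 2 := by
  have : 0 < a ^ 2 := by positivity
  omega

theorem pm_of_sq {a : ℤ} (h : a ^ 2 = 1) : a = 1 ∨ a = -1 := by
  have h1 : (a - 1) * (a + 1) = 0 := by linear_combination h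
  rcases mul_eq_zero.1 h1 with h2 | h2
  · left; omega
  · right; omega

theorem self_sq (hu : ∀ i j, ∑ χ ∈ I, u i χ * u j χ = e + if i = j then 1 else 0) (i : Fin f) :
    ∑ χ ∈ I, (u i χ) ^ 2 = e + 1 := by
  have h := hu i i
  rw [if_pos rfl] at h
  rw [← h]
  exact Finset.sum_congr rfl fun χ _ => pow_two _

theorem diff_sq (hu : ∀ i j, ∑ χ ∈ I, u i χ * u j χ = e + if i = j then 1 else 0) {i j : Fin f}
    (hij : i ≠ j) : ∑ χ ∈ I, (u i χ - u j χ) ^ 2 = 2 := by
  have h1 := self_sq hu i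
  have h2 := self_sq hu j
  have h3 := hu i j
  rw [if_neg hij, add_zero] at h3
  have h4 : ∑ χ ∈ I, (u i χ - u j χ) ^ 2 =
      ∑ χ ∈ I, (u i χ) ^ 2 + ∑ χ ∈ I, (u j χ) ^ 2 - 2 * ∑ χ ∈ I, u i χ * u j χ := by
    rw [Finset.mul_sum, ← Finset.sum_add_distrib, ← Finset.sum_sub_distrib]
    exact Finset.sum_congr rfl fun χ _ => by ring
  rw [h4, h1, h2, h3]
  ring

/-- the sum of a function over `I`, with two terms split off -/
theorem split_two (g : κ → ℤ) {χ₁ χ₂ : κ} (h1 : χ₁ ∈ I) (h2 : χ₂ ∈ I) (hne : χ₁ ≠ χ₂) :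
    ∑ χ ∈ I, g χ = g χ₁ + (g χ₂ + ∑ χ ∈ (I.erase χ₁).erase χ₂, g χ) := by
  rw [← Finset.add_sum_erase I g h1,
    ← Finset.add_sum_erase (I.erase χ₁) g (Finset.mem_erase.2 ⟨hne.symm, h2⟩)]

theorem two_cols (hu : ∀ i j, ∑ χ ∈ I, u i χ * u j χ = e + if i = j then 1 else 0) {i j : Fin f}
    (hij : i ≠ j) {χ₁ χ₂ : κ} (h1 : χ₁ ∈ I) (h2 : χ₂ ∈ I) (hne : χ₁ ≠ χ₂)
    (a1 : u i χ₁ - u j χ₁ ≠ 0) (a2 : u i χ₂ - u j χ₂ ≠ 0) :
    (u i χ₁ - u j χ₁) ^ 2 = 1 ∧ (u i χ₂ - u j χ₂) ^ 2 = 1 ∧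
      ∀ χ ∈ I, χ ≠ χ₁ → χ ≠ χ₂ → u i χ = u j χ := by
  have h3 := diff_sq hu hij
  rw [split_two (fun χ => (u i χ - u j χ) ^ 2) h1 h2 hne] at h3
  have h4 : 0 ≤ ∑ χ ∈ (I.erase χ₁).erase χ₂, (u i χ - u j χ) ^ 2 :=
    Finset.sum_nonneg fun χ _ => sq_nonneg _
  have b1 := one_le_sq a1
  have b2 := one_le_sq a2
  have h5 : ∑ χ ∈ (I.erase χ₁).erase χ₂, (u i χ - u j χ) ^ 2 = 0 := by linarith
  refine ⟨by linarith, by linarith, fun χ hχ hn1 hn2 => ?_⟩
  have h6 := (Finset.sum_eq_zero_iff_of_nonneg (fun χ _ => sq_nonneg _)).1 h5 χ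
    (Finset.mem_erase.2 ⟨hn2, Finset.mem_erase.2 ⟨hn1, hχ⟩⟩)
  have h7 : u i χ - u j χ = 0 := by
    by_contra hc
    have := one_le_sq hc
    linarith
  linarith

theorem no_two (hu : ∀ i j, ∑ χ ∈ I, u i χ * u j χ = e + if i = j then 1 else 0) {i j : Fin f}
    (hij : i ≠ j) {χ₁ χ₂ : κ} (h1 : χ₁ ∈ I) (h2 : χ₂ ∈ I) (hne : χ₁ ≠ χ₂)
    (a1 : u i χ₁ = 0) (a2 : u i χ₂ = 0) (b1 : u j χ₁ ≠ 0) (b2 : u j χ₂ ≠ 0) : False := by
  obtain ⟨c1, c2, c3⟩ := two_cols hu hij h1 h2 hne (by rw [a1, zero_sub]; exact neg_ne_zero.2 b1)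
    (by rw [a2, zero_sub]; exact neg_ne_zero.2 b2)
  rw [a1, zero_sub, neg_sq] at c1
  rw [a2, zero_sub, neg_sq] at c2
  have d1 := self_sq hu i
  have d2 := self_sq hu j
  rw [split_two (fun χ => (u i χ) ^ 2) h1 h2 hne, a1, a2] at d1
  rw [split_two (fun χ => (u j χ) ^ 2) h1 h2 hne, c1, c2] at d2
  have d3 : ∑ χ ∈ (I.erase χ₁).erase χ₂, (u i χ) ^ 2 =
      ∑ χ ∈ (I.erase χ₁).erase χ₂, (u j χ) ^ 2 := by
    refine Finset.sum_congr rfl fun χ hχ => ?_
    obtain ⟨e1, e2⟩ := Finset.mem_erase.1 hχ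
    obtain ⟨e3, e4⟩ := Finset.mem_erase.1 e2
    rw [c3 χ e4 e3 e1]
  rw [d3] at d1
  linarith

/-- columns used by the vectors of `T` -/
noncomputable def supp (I : Finset κ) (u : Fin f → κ → ℤ) (T : Finset (Fin f)) : Finset κ :=
  I.filter fun χ => ∃ i ∈ T, u i χ ≠ 0

theorem card_single (hu : ∀ i j, ∑ χ ∈ I, u i χ * u j χ = e + if i = j then 1 else 0)
    (i : Fin f) : (I.filter fun χ => u i χ ≠ 0).card ≤ e + 1 := by
  have h1 := self_sq hu i
  have h2 : ((I.filter fun χ => u i χ ≠ 0).card : ℤ) ≤ ∑ χ ∈ I, (u i χ) ^ 2 := by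
    rw [Finset.card_eq_sum_ones, Nat.cast_sum]
    calc ∑ χ ∈ I.filter (fun χ => u i χ ≠ 0), ((1 : ℕ) : ℤ)
        ≤ ∑ χ ∈ I.filter (fun χ => u i χ ≠ 0), (u i χ) ^ 2 :=
          Finset.sum_le_sum fun χ hχ => by
            rw [Nat.cast_one]
            exact one_le_sq (Finset.mem_filter.1 hχ).2
      _ ≤ _ := Finset.sum_le_sum_of_subset_of_nonneg (Finset.filter_subset _ _)
          fun χ _ _ => sq_nonneg _
  rw [h1] at h2
  exact_mod_cast h2

theorem card_new (hu : ∀ i j, ∑ χ ∈ I, u i χ * u j χ = e + if i = j then 1 else 0)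
    {T : Finset (Fin f)} (hT : T.Nonempty) {j : Fin f} (hj : j ∉ T) :
    (I.filter fun χ => u j χ ≠ 0 ∧ ∀ i ∈ T, u i χ = 0).card ≤ 1 := by
  rw [Finset.card_le_one]
  intro a ha b hb
  by_contra hne
  obtain ⟨i, hi⟩ := hT
  obtain ⟨a1, a2, a3⟩ := Finset.mem_filter.1 ha
  obtain ⟨b1, b2, b3⟩ := Finset.mem_filter.1 hb
  exact no_two hu (fun h => hj (by rw [← h]; exact hi) : i ≠ j) a1 b1 hne (a3 i hi) (b3 i hi)
    a2 b2

theorem card_supp (hu : ∀ i j, ∑ χ ∈ I, u i χ * u j χ = e + if i = j then 1 else 0)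
    (T : Finset (Fin f)) (hT : T.Nonempty) : (supp I u T).card ≤ e + T.card := by
  induction hT using Finset.Nonempty.cons_induction with
  | singleton i =>
    have h1 : supp I u {i} = I.filter fun χ => u i χ ≠ 0 := by
      unfold supp
      refine Finset.filter_congr fun χ _ => ?_
      simp
    rw [h1, Finset.card_singleton]
    exact card_single hu i
  | cons j T hj hT ih =>
    rw [Finset.cons_eq_insert, Finset.card_insert_of_notMem hj]
    have h1 : supp I u (insert j T) ⊆ supp I u T ∪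
        (I.filter fun χ => u j χ ≠ 0 ∧ ∀ i ∈ T, u i χ = 0) := by
      intro χ hχ
      obtain ⟨h1, i, hi, h2⟩ := Finset.mem_filter.1 hχ
      rw [Finset.mem_union]
      by_cases h3 : ∃ i ∈ T, u i χ ≠ 0
      · exact Or.inl (Finset.mem_filter.2 ⟨h1, h3⟩)
      · right
        push Not at h3
        refine Finset.mem_filter.2 ⟨h1, ?_, h3⟩
        rcases Finset.mem_insert.1 hi with rfl | h4
        · exact h2
        · exact absurd (h3 i h4) h2
    have h2 := Finset.card_le_card h1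
    have h3 := Finset.card_union_le (supp I u T)
      (I.filter fun χ => u j χ ≠ 0 ∧ ∀ i ∈ T, u i χ = 0)
    have h4 := card_new hu hT hj
    omega

theorem supp_univ : supp I u Finset.univ = I.filter fun χ => ∃ i, u i χ ≠ 0 := by
  unfold supp
  refine Finset.filter_congr fun χ _ => ?_
  simp

/-- in the case of equality there are private columns -/
theorem exists_private (hu : ∀ i j, ∑ χ ∈ I, u i χ * u j χ = e + if i = j then 1 else 0)
    (he : 0 < e) (hf : 0 < f) (hS : (I.filter fun χ => ∃ i, u i χ ≠ 0).card = e + f) :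
    ∃ p : Fin f → κ, (∀ k, p k ∈ I) ∧ (∀ k i, i ≠ k → u i (p k) = 0) ∧
      (∀ k, (u k (p k)) ^ 2 = 1) ∧
      ∀ i j, ∀ χ ∈ I, (∀ k, χ ≠ p k) → u i χ = u j χ := by
  rcases Nat.lt_or_ge 1 f with h1 | h1
  · -- at least two vectors
    have hpr : ∀ k : Fin f, ∃ χ ∈ I, u k χ ≠ 0 ∧ ∀ i, i ≠ k → u i χ = 0 := by
      intro k
      by_contra hcon
      push Not at hcon
      have hT : (Finset.univ.erase k : Finset (Fin f)).Nonempty := by
        rw [← Finset.card_pos, Finset.card_erase_of_mem (Finset.mem_univ _), Finset.card_univ,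
          Fintype.card_fin]
        omega
      have h2 := card_supp hu (Finset.univ.erase k) hT
      rw [Finset.card_erase_of_mem (Finset.mem_univ _), Finset.card_univ, Fintype.card_fin] at h2
      have h3 : (I.filter fun χ => ∃ i, u i χ ≠ 0) ⊆ supp I u (Finset.univ.erase k) := by
        intro χ hχ
        obtain ⟨h3, i, hi⟩ := Finset.mem_filter.1 hχ
        refine Finset.mem_filter.2 ⟨h3, ?_⟩
        by_cases hk : i = k
        · rw [hk] at hi
          obtain ⟨j, hj, hj2⟩ := hcon χ h3 hi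
          exact ⟨j, Finset.mem_erase.2 ⟨hj, Finset.mem_univ _⟩, hj2⟩
        · exact ⟨i, Finset.mem_erase.2 ⟨hk, Finset.mem_univ _⟩, hi⟩
      have h4 := Finset.card_le_card h3
      omega
    choose p hpI hp1 hp2 using hpr
    have hpne : ∀ i j, i ≠ j → p i ≠ p j := by
      intro i j hij h
      have h2 := hp2 i j hij.symm
      rw [h] at h2
      exact hp1 j h2
    have key : ∀ i j, i ≠ j → (u i (p i)) ^ 2 = 1 ∧
        ∀ χ ∈ I, χ ≠ p i → χ ≠ p j → u i χ = u j χ := by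
      intro i j hij
      obtain ⟨c1, -, c3⟩ := two_cols hu hij (hpI i) (hpI j) (hpne i j hij)
        (by rw [hp2 i j hij.symm, sub_zero]; exact hp1 i)
        (by rw [hp2 j i hij, zero_sub]; exact neg_ne_zero.2 (hp1 j))
      rw [hp2 i j hij.symm, sub_zero] at c1
      exact ⟨c1, c3⟩
    refine ⟨p, hpI, fun k i hik => hp2 k i hik, fun k => ?_, fun i j χ hχ hne => ?_⟩
    · obtain ⟨j, hj⟩ : ∃ j : Fin f, k ≠ j := by
        have : Nontrivial (Fin f) := Fin.nontrivial_iff_two_le.2 h1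
        obtain ⟨j, hj⟩ := exists_ne k
        exact ⟨j, hj.symm⟩
      exact (key k j hj).1
    · by_cases hij : i = j
      · rw [hij]
      · exact (key i j hij).2 χ hχ (hne i) (hne j)
  · -- one vector
    have hf1 : f = 1 := by omega
    subst hf1
    have h0 : ∀ i : Fin 1, i = 0 := fun i => Subsingleton.elim _ _
    have hS' : (I.filter fun χ => u 0 χ ≠ 0).card = e + 1 := by
      rw [← hS]
      congr 1
      refine Finset.filter_congr fun χ _ => ?_
      constructor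
      · exact fun h => ⟨0, h⟩
      · rintro ⟨i, hi⟩
        rwa [h0 i] at hi
    have hsq : ∀ χ ∈ I.filter (fun χ => u 0 χ ≠ 0), (u 0 χ) ^ 2 = 1 := by
      have h2 : ∑ χ ∈ I.filter (fun χ => u 0 χ ≠ 0), (u 0 χ) ^ 2 = e + 1 := by
        rw [← self_sq hu 0]
        refine Finset.sum_subset (Finset.filter_subset _ _) fun χ hχ hn => ?_
        have : u 0 χ = 0 := by
          by_contra hc
          exact hn (Finset.mem_filter.2 ⟨hχ, hc⟩)
        rw [this]
        rfl
      have h3 : ∑ χ ∈ I.filter (fun χ => u 0 χ ≠ 0), ((u 0 χ) ^ 2 - 1) = 0 := by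
        rw [Finset.sum_sub_distrib, h2, Finset.sum_const, hS']
        simp
      intro χ hχ
      have h4 := (Finset.sum_eq_zero_iff_of_nonneg (fun χ hχ => by
        have := one_le_sq (Finset.mem_filter.1 hχ).2
        linarith)).1 h3 χ hχ
      linarith
    obtain ⟨χ₀, hχ₀⟩ : (I.filter fun χ => u 0 χ ≠ 0).Nonempty := by
      rw [← Finset.card_pos]
      omega
    refine ⟨fun _ => χ₀, fun _ => (Finset.mem_filter.1 hχ₀).1, fun k i hik => ?_, fun k => ?_,
      fun i j χ _ _ => ?_⟩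
    · exact absurd (Subsingleton.elim i k) hik
    · rw [h0 k]
      exact hsq χ₀ hχ₀
    · rw [Subsingleton.elim i j]

end

theorem t_C4 : Pool.Agent.K3h83.IN.C4 := by
  intro κ I e f he hf u hu
  have hne : (Finset.univ : Finset (Fin f)).Nonempty := ⟨⟨0, hf⟩, Finset.mem_univ _⟩
  refine ⟨?_, fun hS => ?_⟩
  · have h1 := card_supp hu Finset.univ hne
    rw [supp_univ, Finset.card_univ, Fintype.card_fin] at h1
    convert h1
  have hS' : (I.filter fun χ => ∃ i, u i χ ≠ 0).card = e + f := by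
    rw [← hS]
  obtain ⟨p, hpI, hp0, hp1, heq⟩ := exists_private hu he hf hS'
  have hpinj : Function.Injective p := by
    intro i j hij
    by_contra hne
    have h1 := hp0 i j (Ne.symm hne)
    have h2 := hp1 j
    rw [← hij, h1] at h2
    norm_num at h2
  set S := I.filter fun χ => ∃ i, u i χ ≠ 0 with hSdef
  have hpS : ∀ k, p k ∈ S := fun k => Finset.mem_filter.2 ⟨hpI k, k, fun h => by
    have := hp1 k
    rw [h] at this
    norm_num at this⟩
  set R := S \ Finset.univ.image p with hR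
  have hRc : R.card = e := by
    have h1 : Finset.univ.image p ⊆ S := by
      intro χ hχ
      obtain ⟨k, -, rfl⟩ := Finset.mem_image.1 hχ
      exact hpS k
    rw [hR, Finset.card_sdiff_of_subset h1, Finset.card_image_of_injective _ hpinj,
      Finset.card_univ, Fintype.card_fin, hS']
    omega
  let i₀ : Fin f := ⟨0, hf⟩
  have hRp : ∀ χ ∈ R, χ ∈ I ∧ (∀ k, χ ≠ p k) ∧ ∀ i, u i χ = u i₀ χ := by
    intro χ hχ
    obtain ⟨h1, h2⟩ := Finset.mem_sdiff.1 hχ
    have h3 : ∀ k, χ ≠ p k := fun k h => h2 (Finset.mem_image.2 ⟨k, Finset.mem_univ _, h.symm⟩)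
    have h4 := (Finset.mem_filter.1 h1).1
    exact ⟨h4, h3, fun i => heq i i₀ χ h4 h3⟩
  have hRne : ∀ χ ∈ R, u i₀ χ ≠ 0 := by
    intro χ hχ h0
    obtain ⟨h1, h2⟩ := Finset.mem_sdiff.1 hχ
    obtain ⟨-, i, hi⟩ := Finset.mem_filter.1 h1
    rw [(hRp χ hχ).2.2 i] at hi
    exact hi h0
  have hsum : ∑ χ ∈ R, (u i₀ χ) ^ 2 = e := by
    have h1 := self_sq hu i₀
    have h2 : ∑ χ ∈ R ∪ {p i₀}, (u i₀ χ) ^ 2 = ∑ χ ∈ I, (u i₀ χ) ^ 2 := by
      refine Finset.sum_subset ?_ fun χ hχ hn => ?_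
      · intro χ hχ
        rcases Finset.mem_union.1 hχ with h | h
        · exact (hRp χ h).1
        · rw [Finset.mem_singleton.1 h]
          exact hpI i₀
      · have h3 : u i₀ χ = 0 := by
          by_contra hc
          apply hn
          rw [Finset.mem_union, Finset.mem_singleton]
          by_cases h4 : ∃ k, χ = p k
          · obtain ⟨k, rfl⟩ := h4
            right
            by_contra h5
            exact hc (hp0 k i₀ fun h => h5 (by rw [h]))
          · left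
            push Not at h4
            refine Finset.mem_sdiff.2 ⟨Finset.mem_filter.2 ⟨hχ, i₀, hc⟩, fun h5 => ?_⟩
            obtain ⟨k, -, hk⟩ := Finset.mem_image.1 h5
            exact h4 k hk.symm
        rw [h3]
        rfl
    have h3 : Disjoint R {p i₀} := by
      rw [Finset.disjoint_singleton_right]
      intro h
      exact (hRp _ h).2.1 i₀ rfl
    rw [Finset.sum_union h3, Finset.sum_singleton, hp1 i₀, h1] at h2
    linarith
  have hsq : ∀ χ ∈ R, (u i₀ χ) ^ 2 = 1 := by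
    have h3 : ∑ χ ∈ R, ((u i₀ χ) ^ 2 - 1) = 0 := by
      rw [Finset.sum_sub_distrib, hsum, Finset.sum_const, hRc]
      simp
    intro χ hχ
    have h4 := (Finset.sum_eq_zero_iff_of_nonneg (fun χ hχ => by
      have := one_le_sq (hRne χ hχ)
      linarith)).1 h3 χ hχ
    linarith
  let E : Fin e ≃ R := (R.equivFinOfCardEq hRc).symm
  refine ⟨Sum.elim (fun j => (E j).1) p, Sum.elim (fun j => -u i₀ (E j).1) (fun k => u k (p k)),
    ?_, ?_, ?_, ?_, ?_⟩
  · intro a b hab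
    rcases a with a | a <;> rcases b with b | b
    · exact congrArg Sum.inl (E.injective (Subtype.ext hab))
    · exact absurd hab ((hRp _ (E a).2).2.1 b)
    · exact absurd hab.symm ((hRp _ (E b).2).2.1 a)
    · exact congrArg Sum.inr (hpinj hab)
  · rintro (j | k)
    · exact (Finset.mem_sdiff.1 (E j).2).1
    · exact hpS k
  · rintro (j | k)
    · have h1 : (-u i₀ (E j).1) ^ 2 = 1 := by
        rw [neg_sq]
        exact hsq _ (E j).2
      exact pm_of_sq h1
    · exact pm_of_sq (hp1 k)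
  · intro j i
    show u i (E j).1 = -(-u i₀ (E j).1)
    rw [neg_neg]
    exact (hRp _ (E j).2).2.2 i
  · intro k i
    show u i (p k) = if i = k then u k (p k) else 0
    by_cases h : i = k
    · rw [if_pos h, h]
    · rw [if_neg h]
      exact hp0 k i h

end Pool.Agent.K3h41.CY
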